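import Pool.Agent.Helper33.HM.Names

/-!
# Every countable family of elements lies in some stage; closing off (module HM-N)
-/

set_option autoImplicit false
set_option linter.unusedSectionVars false

namespace Pool.Agent.Helper33.HM

section LN

variable {B : Type 1} [CompleteBooleanAlgebra B]

theorem h8n_exists_stage_one (I : HIter B) (c : B) : ∃ β, c ∈ I.S β := by
  obtain ⟨a, -, haD, -, -, hsup⟩ := exists_partition I.ccc isSub_univ
    (fun c => ∃ β, c ∈ I.S β)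
    (by
      intro b _ hb0
      obtain ⟨β, c, hc, hc0, hcb⟩ := I.top b hb0
      exact ⟨c, trivial, hc0, hcb, β, hc⟩)
    ⟨0, (I.sub 0).bot_mem⟩ (e := c) trivial
  choose β hβ using haD
  refine ⟨⨆ n, β n, ?_⟩
  rw [← hsup]
  exact (I.sub _).iSup_mem fun n => I.mono _ _ (Ordinal.le_iSup β n) (hβ n)

/-- Every countable family of elements lies in some stage. -/
theorem exists_stage (I : HIter B) (c : ℕ → B) : ∃ β, ∀ n, c n ∈ I.S β := by
  choose β hβ using fun n => h8n_exists_stage_one I (c n)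
  exact ⟨⨆ n, β n, fun n => I.mono _ _ (Ordinal.le_iSup β n) (hβ n)⟩

/-- The increasing sequence of stages used for closing off. -/
noncomputable def h8n_A (g : Ordinal.{0} → Ordinal.{0}) : Ordinal.{0} → Ordinal.{0} :=
  WellFounded.fix Ordinal.lt_wf
    (fun ξ ih => ⨆ η : Set.Iio ξ, Order.succ (max (ih η.1 η.2) (g (ih η.1 η.2))))

theorem h8n_A_eq (g : Ordinal.{0} → Ordinal.{0}) (ξ : Ordinal.{0}) :
    h8n_A g ξ = ⨆ η : Set.Iio ξ, Order.succ (max (h8n_A g η.1) (g (h8n_A g η.1))) := by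
  unfold h8n_A
  rw [WellFounded.fix_eq]

theorem h8n_A_lt (g : Ordinal.{0} → Ordinal.{0}) {η ξ : Ordinal.{0}} (h : η < ξ) :
    max (h8n_A g η) (g (h8n_A g η)) < h8n_A g ξ := by
  rw [h8n_A_eq g ξ, Ordinal.lt_iSup_iff]
  exact ⟨⟨η, h⟩, Order.lt_succ _⟩

theorem h8n_A_strictMono (g : Ordinal.{0} → Ordinal.{0}) : StrictMono (h8n_A g) := fun _ _ h =>
  lt_of_le_of_lt (le_max_left _ _) (h8n_A_lt g h)

theorem h8n_lt_A (g : Ordinal.{0} → Ordinal.{0}) {β : Ordinal.{0}}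
    (h : β < h8n_A g (Ordinal.omega 1)) : ∃ ξ < Ordinal.omega 1, β < h8n_A g ξ := by
  rw [h8n_A_eq g (Ordinal.omega 1), Ordinal.lt_iSup_iff] at h
  obtain ⟨⟨η, hη⟩, h⟩ := h
  refine ⟨Order.succ η, (Cardinal.isSuccLimit_omega 1).succ_lt hη, ?_⟩
  exact lt_of_le_of_lt (Order.lt_succ_iff.1 h) (h8n_A_lt g (Order.lt_succ η))

theorem h8n_A_isSuccLimit (g : Ordinal.{0} → Ordinal.{0}) :
    Order.IsSuccLimit (h8n_A g (Ordinal.omega 1)) := by
  constructor
  · intro hmin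
    have h0 : (0 : Ordinal.{0}) < Ordinal.omega 1 := Ordinal.omega_pos 1
    exact hmin.not_lt (h8n_A_strictMono g h0)
  · apply Order.isSuccPrelimit_of_succ_lt
    intro β hβ
    obtain ⟨ξ, hξ, h⟩ := h8n_lt_A g hβ
    exact lt_of_le_of_lt (Order.succ_le_iff.2 h) (h8n_A_strictMono g hξ)

theorem h8n_mem_A (I : HIter B) (g : Ordinal.{0} → Ordinal.{0}) {c : B}
    (hc : c ∈ I.S (h8n_A g (Ordinal.omega 1))) :
    ∃ ξ < Ordinal.omega 1, c ∈ I.S (h8n_A g ξ) := by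
  obtain ⟨a, -, haD, -, -, hsup⟩ := exists_partition I.ccc (I.sub (h8n_A g (Ordinal.omega 1)))
    (fun c => ∃ ξ < Ordinal.omega 1, c ∈ I.S (h8n_A g ξ))
    (by
      intro b hb hb0
      obtain ⟨β, hβ, c, hc, hc0, hcb⟩ := I.lim _ (h8n_A_isSuccLimit g) b hb hb0
      obtain ⟨ξ, hξ, h⟩ := h8n_lt_A g hβ
      exact ⟨c, I.mono _ _ hβ.le hc, hc0, hcb, ξ, hξ, I.mono _ _ h.le hc⟩)
    ⟨0, Ordinal.omega_pos 1, (I.sub _).bot_mem⟩ hc
  choose ξ hξ hξ' using haD
  refine ⟨⨆ n, ξ n, Ordinal.iSup_lt_omega_one hξ, ?_⟩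
  rw [← hsup]
  exact (I.sub _).iSup_mem fun n =>
    I.mono _ _ ((h8n_A_strictMono g).monotone (Ordinal.le_iSup ξ n)) (hξ' n)

/-- closing off: `α` has uncountable cofinality and `I.S α` is closed under `w` -/
theorem closing (I : HIter B) (w : (ℕ → List Bool → B) → ℕ → List Bool → B) :
    ∃ α, ∀ P : ℕ → List Bool → B, (∀ n σ, P n σ ∈ I.S α) → ∀ n σ, w P n σ ∈ I.S α := by
  classical
  have hst : ∀ P : ℕ → List Bool → B, ∃ β, ∀ n σ, w P n σ ∈ I.S β := by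
    intro P
    obtain ⟨β, hβ⟩ := exists_stage I (fun k =>
      match Encodable.decode (α := ℕ × List Bool) k with
      | some x => w P x.1 x.2
      | none => ⊥)
    refine ⟨β, fun n σ => ?_⟩
    have := hβ (Encodable.encode (n, σ))
    simpa using this
  choose st hst using hst
  let fam : Ordinal.{0} → Type 1 := fun γ => ℕ → List Bool → I.S γ
  have hsm : ∀ γ, Small.{0} (fam γ) := by
    intro γ
    have := I.small γ
    exact small_Pi _
  let g : Ordinal.{0} → Ordinal.{0} := fun γ => ⨆ P : fam γ, st (fun n σ => (P n σ : B))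
  refine ⟨h8n_A g (Ordinal.omega 1), ?_⟩
  intro P hP n σ
  choose ξ hξ hξ' using fun (x : ℕ × List Bool) => h8n_mem_A I g (hP x.1 x.2)
  let ζ : Ordinal.{0} := ⨆ x, ξ x
  have hζ : ζ < Ordinal.omega 1 := Ordinal.iSup_lt_omega_one hξ
  have hPζ : ∀ n σ, P n σ ∈ I.S (h8n_A g ζ) := fun n σ =>
    I.mono _ _ ((h8n_A_strictMono g).monotone (Ordinal.le_iSup ξ (n, σ))) (hξ' (n, σ))
  let Q : fam (h8n_A g ζ) := fun n σ => ⟨P n σ, hPζ n σ⟩
  have h1 : st P ≤ g (h8n_A g ζ) := by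
    have := hsm (h8n_A g ζ)
    exact Ordinal.le_iSup (fun P : fam (h8n_A g ζ) => st (fun n σ => (P n σ : B))) Q
  have h2 : st P ≤ h8n_A g (Ordinal.omega 1) :=
    h1.trans ((le_max_right _ _).trans (h8n_A_lt g hζ).le)
  exact I.mono _ _ h2 (hst P n σ)

end LN

end Pool.Agent.Helper33.HM
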